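import Pool.Agent.T9h98.NK.SpecS

/-!
# Project NK, STEP, piece LOCX
-/

set_option autoImplicit false

open Set
open scoped RealInnerProductSpace

namespace Pool.Agent.T9h83.NK

open Pool.Agent.T9h98.DC Pool.Agent.T9h44.NK Pool.Agent.T9h98.NK

/-- the image of a face (as in helper58s TR) -/
theorem face_image' {d : ℕ} {P F : Set (E d)} (h : E d ≃ₗᵢ[ℝ] E d) (hP : h '' P = P)
    (hF : IsFace P F) : IsFace P (h '' F) := by
  obtain ⟨hne, hex⟩ := hF
  refine ⟨hne.image _, fun _ => ?_⟩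
  obtain ⟨l, hl⟩ := hex hne
  have hP' : ∀ x, x ∈ P ↔ h x ∈ P := by
    intro x
    constructor
    · intro hx; rw [← hP]; exact mem_image_of_mem _ hx
    · intro hx
      rw [← hP] at hx
      obtain ⟨y, hy, hyx⟩ := hx
      rwa [← h.injective hyx]
  refine ⟨l.comp (h.symm.toContinuousLinearEquiv : E d →L[ℝ] E d), ?_⟩
  ext y
  constructor
  · rintro ⟨x, hx, rfl⟩
    rw [hl] at hx
    refine ⟨(hP' x).1 hx.1, fun z hz => ?_⟩
    have h1 : h.symm z ∈ P := (hP' _).2 (by rwa [h.apply_symm_apply])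
    have h2 := hx.2 _ h1
    show l (h.symm z) ≤ l (h.symm (h x))
    rwa [h.symm_apply_apply]
  · rintro ⟨hy, hy2⟩
    refine ⟨h.symm y, ?_, h.apply_symm_apply y⟩
    rw [hl]
    refine ⟨(hP' _).2 (by rwa [h.apply_symm_apply]), fun z hz => ?_⟩
    have h2 := hy2 (h z) ((hP' z).1 hz)
    have h3 : l (h.symm (h z)) ≤ l (h.symm y) := h2
    rwa [h.symm_apply_apply] at h3

theorem adj_image {d : ℕ} {P : Set (E d)} (h : E d ≃ₗᵢ[ℝ] E d) (hP : h '' P = P) {v w : E d}
    (hv : h v = v) (ha : Adj P v w) : Adj P v (h w) := by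
  refine ⟨fun h1 => ha.1 (h.injective (hv.trans h1)), ?_⟩
  have h1 := face_image' h hP ha.2
  have h2 : h '' segment ℝ v w = segment ℝ v (h w) := by
    have := image_segment ℝ h.toLinearEquiv.toLinearMap.toAffineMap v w
    calc h '' segment ℝ v w = segment ℝ (h v) (h w) := this
      _ = _ := by rw [hv]
  rwa [h2] at h1

/-- neighbours of `v` are `v + t (n + ι x)`, `x` a vertex of the figure, if the group is transitive
and the vertices have the same norm -/
theorem locx : S_FACES → S_NB → S_CENX → S_G2 → S_LOCX := by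
  intro hFA hNB hCEN hG2 D P H v n ι hD hP hPres hv hyp hRO
  classical
  obtain ⟨hSup, hn, hOrt, hfix, hgood⟩ := hyp
  obtain ⟨c, r, b, hr, hQ⟩ := hRO
  obtain ⟨hc, htr⟩ := hCEN D P H v n ι hD hP hPres hv ⟨hSup, hn, hOrt, hfix, hgood⟩ c r b hr hQ
  subst hc
  obtain ⟨G1, G2⟩ := hG2 D (fig v n ι P) 0 r b hr hQ
  obtain ⟨N1, N2, N3, N4⟩ := hNB D P v n ι hP hv hSup hn hOrt
  have hDne : D ≠ 1 := by omega
  -- transitivity
  have trans : ∀ w w' x x', Adj P v w → Adj P v w' → Vx (fig v n ι P) x → Vx (fig v n ι P) x' →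
      Pr v n ι w x → Pr v n ι w' x' → ∃ h ∈ H, h v = v ∧ h w = w' := by
    intro w w' x x' hw hw' hx hx' hwx hwx'
    obtain ⟨k, ⟨h, hh, h1, h2⟩, h3⟩ := htr x x' hx hx'
    refine ⟨h, hh, h1, ?_⟩
    have hadj := adj_image h (hPres h hh) h1 hw
    obtain ⟨t, ht, h4⟩ := hwx
    have h5 : Pr v n ι (h w) x' := by
      refine ⟨t, ht, ?_⟩
      have h6 : h (w - v) = t • (n + ι x') := by
        rw [h4, map_smul, map_add, hfix h hh h1, ← h2, h3]
      rwa [map_sub, h1] at h6
    exact (N3 _ _ _ _ hadj hw' h5 hwx').1 rfl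
  have trans2 : ∀ w w', Adj P v w → Adj P v w' → ∃ h ∈ H, h v = v ∧ h w = w' := by
    intro w w' hw hw'
    obtain ⟨x, hx, hwx⟩ := N1 w hw
    obtain ⟨x', hx', hwx'⟩ := N1 w' hw'
    exact trans w w' x x' hw hw' hx hx' hwx hwx'
  have hlen : ∀ w w', Adj P v w → Adj P v w' → ‖w - v‖ = ‖w' - v‖ := by
    intro w w' hw hw'
    obtain ⟨h, -, h1, h2⟩ := trans2 w w' hw hw'
    rw [← h2]
    conv_rhs => rw [← h1]
    rw [← map_sub, LinearIsometryEquiv.norm_map]
  -- norms in the figure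
  have hnorm : ∀ x, Vx (fig v n ι P) x → ‖x‖ = r := by
    intro x hx
    obtain ⟨i, h1 | h1⟩ := (G1 x).1 hx
    · rw [h1, zero_add, norm_smul, b.orthonormal.1 i, mul_one, Real.norm_eq_abs, abs_of_pos hr]
    · rw [h1, zero_sub, norm_neg, norm_smul, b.orthonormal.1 i, mul_one, Real.norm_eq_abs,
        abs_of_pos hr]
  have hinner : ∀ x x' : E D, ⟪n + ι x, n + ι x'⟫ = ‖n‖ ^ 2 + ⟪x, x'⟫ := by
    intro x x'
    rw [inner_add_left, inner_add_right, inner_add_right, hOrt x', real_inner_comm n (ι x), hOrt x,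
      real_inner_self_eq_norm_sq, ι.inner_map_map]
    ring
  let i0 : Fin D := ⟨0, by omega⟩
  have hx0 : Vx (fig v n ι P) (r • b i0) := (G1 _).2 ⟨i0, Or.inl (by rw [zero_add])⟩
  obtain ⟨y0, hy0, t, ht, hty0⟩ := N2 _ hx0
  have hnsq : 0 < ‖n‖ ^ 2 := by positivity
  have hS : 0 < ‖n‖ ^ 2 + r ^ 2 := by positivity
  have hn2 : ∀ x, Vx (fig v n ι P) x → ‖n + ι x‖ ^ 2 = ‖n‖ ^ 2 + r ^ 2 := by
    intro x hx
    rw [← real_inner_self_eq_norm_sq, hinner, real_inner_self_eq_norm_sq, hnorm x hx]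
  have ht0 : ‖y0 - v‖ ^ 2 = t ^ 2 * (‖n‖ ^ 2 + r ^ 2) := by
    rw [hty0, norm_smul, mul_pow, hn2 _ hx0, Real.norm_eq_abs, sq_abs]
  -- the neighbours
  let Y : E D → E (D + 1) := fun x => v + t • (n + ι x)
  have hYv : ∀ x, Y x - v = t • (n + ι x) := fun x => by
    show v + t • (n + ι x) - v = _
    rw [add_sub_cancel_left]
  have hYPr : ∀ x, Pr v n ι (Y x) x := fun x => ⟨t, ht, hYv x⟩
  have hA1 : ∀ y x, Adj P v y → Vx (fig v n ι P) x → Pr v n ι y x → y = Y x := by
    rintro y x hy hx ⟨t', ht', h1⟩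
    have h2 : ‖y - v‖ ^ 2 = t' ^ 2 * (‖n‖ ^ 2 + r ^ 2) := by
      rw [h1, norm_smul, mul_pow, hn2 _ hx, Real.norm_eq_abs, sq_abs]
    rw [hlen y y0 hy hy0, ht0] at h2
    have h3 : t ^ 2 = t' ^ 2 := mul_right_cancel₀ hS.ne' h2
    have h4 : t = t' := by nlinarith
    rw [h4.symm] at h1
    show y = v + t • (n + ι x)
    rw [← h1]
    abel
  have hA2 : ∀ x, Vx (fig v n ι P) x → Adj P v (Y x) := by
    intro x hx
    obtain ⟨y, hy, hyx⟩ := N2 x hx
    rw [← hA1 y x hy hx hyx]
    exact hy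
  have hA3 : ∀ y, Adj P v y → ∃ x, Vx (fig v n ι P) x ∧ y = Y x := by
    intro y hy
    obtain ⟨x, hx, hyx⟩ := N1 y hy
    exact ⟨x, hx, hA1 y x hy hx hyx⟩
  have hYinj : ∀ x x', Y x = Y x' → x = x' := by
    intro x x' h
    have h1 : t • (n + ι x) = t • (n + ι x') := add_left_cancel h
    have h2 := smul_right_injective (E (D + 1)) ht.ne' h1
    exact ι.injective (add_left_cancel h2)
  have hCor : ∀ x x', Vx (fig v n ι P) x → Vx (fig v n ι P) x' →
      (Cor P v (Y x) (Y x') ↔ Adj (fig v n ι P) x x') := by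
    intro x x' hx hx'
    rw [N4 _ _ _ _ (hA2 x hx) (hA2 x' hx') (hYPr x) (hYPr x')]
    constructor
    · rintro ⟨-, -, h1, h2⟩
      exact ⟨h1, h2⟩
    · rintro ⟨h1, h2⟩
      exact ⟨hA2 x hx, hA2 x' hx', h1, h2⟩
  have hneg : ∀ x, Vx (fig v n ι P) x → Vx (fig v n ι P) (-x) := by
    intro x hx
    obtain ⟨i, h1 | h1⟩ := (G1 x).1 hx
    · exact (G1 _).2 ⟨i, Or.inr (by rw [h1, zero_add, zero_sub])⟩
    · exact (G1 _).2 ⟨i, Or.inl (by rw [h1, zero_add, zero_sub, neg_neg])⟩
  have hAdjQ : ∀ x x', Vx (fig v n ι P) x → Vx (fig v n ι P) x' →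
      (Adj (fig v n ι P) x x' ↔ (x ≠ x' ∧ x' ≠ -x)) := by
    intro x x' hx hx'
    rw [G2 x x' hx hx', sub_zero, sub_zero]
    constructor
    · rintro ⟨h1, h2 | h2⟩
      · exact ⟨h1, h2⟩
      · exact absurd h2 hDne
    · rintro ⟨h1, h2⟩
      exact ⟨h1, Or.inl h2⟩
  have horth : ∀ x x', Vx (fig v n ι P) x → Vx (fig v n ι P) x' → x ≠ x' → x' ≠ -x →
      ⟪x, x'⟫ = 0 := by
    intro x x' hx hx' h1 h2
    obtain ⟨i, h3⟩ := (G1 x).1 hx
    obtain ⟨j, h4⟩ := (G1 x').1 hx'
    by_cases hij : i = j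
    · subst hij
      exfalso
      simp only [zero_add, zero_sub] at h3 h4
      rcases h3 with h3 | h3 <;> rcases h4 with h4 | h4
      · exact h1 (h3.trans h4.symm)
      · exact h2 (by rw [h4, h3])
      · exact h2 (by rw [h4, h3, neg_neg])
      · exact h1 (h3.trans h4.symm)
    · have h5 := b.orthonormal.2 hij
      simp only [zero_add, zero_sub] at h3 h4
      rcases h3 with h3 | h3 <;> rcases h4 with h4 | h4 <;> rw [h3, h4] <;>
        simp [inner_smul_left, inner_smul_right, h5]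
  have hYin : ∀ x x', ⟪Y x - v, Y x' - v⟫ = t ^ 2 * (‖n‖ ^ 2 + ⟪x, x'⟫) := by
    intro x x'
    rw [hYv, hYv, inner_smul_left, inner_smul_right, hinner]
    simp only [conj_trivial]
    ring
  have hYop : ∀ x, v + (2 * t) • n - (Y x - v) = Y (-x) := by
    intro x
    rw [hYv]
    show _ = v + t • (n + ι (-x))
    rw [map_neg, two_mul, add_smul, smul_add, smul_add, smul_neg]
    abel
  have hepos : 0 < ‖y0 - v‖ := norm_pos_iff.2 (sub_ne_zero.2 (Ne.symm hy0.1))
  refine ⟨⟨‖n‖ ^ 2 / (‖n‖ ^ 2 + r ^ 2), ‖y0 - v‖, ?_⟩, ?_⟩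
  · refine ⟨hepos, ?_, div_pos hnsq hS, fun y hy => hlen y y0 hy hy0, ⟨(2 * t) • n, ?_⟩, ?_⟩
    · rw [div_lt_one hS]
      nlinarith [pow_pos hr 2]
    · intro y hy
      obtain ⟨x, hx, rfl⟩ := hA3 y hy
      rw [hYop x]
      have hxne : x ≠ 0 := by
        intro h
        have := hnorm x hx
        rw [h, norm_zero] at this
        exact hr.ne this
      have hnn : -x ≠ x := by
        intro h
        have h2 : (2 : ℝ) • x = 0 := by
          rw [two_smul]
          nth_rewrite 1 [← h]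
          exact neg_add_cancel x
        exact hxne ((smul_eq_zero.1 h2).resolve_left two_ne_zero)
      refine ⟨hA2 _ (hneg x hx), fun h => hnn (hYinj _ _ h), ?_, ?_, ?_⟩
      · have h1 : (2 * t) • n - (Y x - v) = Y (-x) - v := by
          rw [← hYop x]
          abel
        rw [h1, hYin, inner_neg_right, real_inner_self_eq_norm_sq, hnorm x hx, ht0]
        field_simp
        ring
      · rw [hCor x (-x) hx (hneg x hx), hAdjQ x (-x) hx (hneg x hx)]
        rintro ⟨-, h1⟩
        exact h1 rfl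
      · intro y' hy' h1 h2
        obtain ⟨x', hx', rfl⟩ := hA3 y' hy'
        have h3 : x ≠ x' := fun h => h1 (by rw [h])
        have h4 : x' ≠ -x := fun h => h2 (by rw [h])
        refine ⟨(hCor x x' hx hx').2 ((hAdjQ x x' hx hx').2 ⟨h3, h4⟩), ?_⟩
        rw [hYin, horth x x' hx hx' h3 h4, ht0]
        field_simp
        ring
    · -- the number
      let Z : Fin D × Bool → E (D + 1) := fun q => Y (if q.2 then r • b q.1 else -(r • b q.1))
      have hZ : {y | Adj P v y} = range Z := by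
        ext y
        constructor
        · intro hy
          obtain ⟨x, hx, rfl⟩ := hA3 y hy
          obtain ⟨i, h1 | h1⟩ := (G1 x).1 hx
          · exact ⟨(i, true), by
              show Y (if true then _ else _) = _
              rw [if_pos rfl, h1, zero_add]⟩
          · exact ⟨(i, false), by
              show Y (if false = true then _ else _) = _
              rw [if_neg (by decide), h1, zero_sub]⟩
        · rintro ⟨⟨i, q⟩, rfl⟩
          cases q
          · exact hA2 _ ((G1 _).2 ⟨i, Or.inr (by simp)⟩)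
          · exact hA2 _ ((G1 _).2 ⟨i, Or.inl (by simp)⟩)
      have hbb : ∀ i j : Fin D, ∀ x y : ℝ, x ≠ 0 → x • b i = y • b j → i = j := by
        intro i j x y hx h
        by_contra hij
        have h1 : ⟪b i, x • b i⟫ = ⟪b i, y • b j⟫ := by rw [h]
        rw [inner_smul_right, inner_smul_right, b.orthonormal.2 hij, mul_zero,
          real_inner_self_eq_norm_sq, b.orthonormal.1 i] at h1
        apply hx
        linarith
      have hZinj : Function.Injective Z := by
        rintro ⟨i, p⟩ ⟨j, q⟩ h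
        have h1 := hYinj _ _ h
        have h2 : ∀ (i : Fin D) (p : Bool), (if p then r • b i else -(r • b i)) =
            (if p then r else -r) • b i := by
          intro i p
          split_ifs
          · rfl
          · rw [neg_smul]
        simp only at h1
        rw [h2, h2] at h1
        have h3 : (if p then r else -r) ≠ 0 := by
          split_ifs
          · exact hr.ne'
          · exact neg_ne_zero.2 hr.ne'
        have h4 := hbb i j _ _ h3 h1
        subst h4
        have hbi : b i ≠ 0 := by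
          intro h5
          have := b.orthonormal.1 i
          rw [h5, norm_zero] at this
          norm_num at this
        have h5 := smul_left_injective ℝ hbi h1
        cases p <;> cases q <;> simp at h5 ⊢ <;> linarith
      rw [hZ, ← image_univ, ncard_image_of_injective _ hZinj, ncard_univ]
      simp [mul_comm]
  · intro w w' hw hw'
    obtain ⟨h, hh, -, h1⟩ := trans2 w w' hw hw'
    exact ⟨h, hh, h1⟩

end Pool.Agent.T9h83.NK
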